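import Pool.Agent.H21.HS.Targets

/-!
# MP_7023e6_lc, module CODE: existence of good sets
-/

set_option autoImplicit false

namespace Pool.Agent.H70.HS.CODE

open Finset
open Pool.Agent.H21.HS

theorem sg_sq (a : ZMod 2) : sg a * sg a = 1 := by
  unfold sg; split_ifs <;> norm_num

theorem ch_sq {V : Type} (T : Finset V) (S : V → ZMod 2) : ch T S * ch T S = 1 := by
  unfold ch
  rw [← Finset.prod_mul_distrib]
  exact Finset.prod_eq_one fun v _ => sg_sq _

theorem abs_ch {V : Type} (T : Finset V) (S : V → ZMod 2) : |ch T S| = 1 := by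
  have h := ch_sq T S
  rw [← abs_mul_abs_self] at h
  nlinarith [abs_nonneg (ch T S), sq_nonneg (|ch T S| - 1), sq_nonneg (|ch T S| + 1)]

theorem ch_le_one {V : Type} (T : Finset V) (S : V → ZMod 2) : ch T S ≤ 1 :=
  (le_abs_self _).trans (abs_ch T S).le

theorem neg_one_le_ch {V : Type} (T : Finset V) (S : V → ZMod 2) : -1 ≤ ch T S := by
  have := neg_abs_le (ch T S)
  rw [abs_ch] at this
  exact this

theorem dl_nonneg {V : Type} (e : Finset V) (S : V → ZMod 2) : 0 ≤ dl e S := by
  unfold dl; split_ifs <;> norm_num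

theorem dl_cases {V : Type} (e : Finset V) (S : V → ZMod 2) : dl e S = 0 ∨ dl e S = 1 := by
  unfold dl; split_ifs <;> simp

theorem one_sub_ch_le (havg : T_avg) {V : Type} [DecidableEq V] (e : Finset V) (S : V → ZMod 2)
    {T : Finset V} (hT : T ∈ ev e) : 1 - ch T S ≤ 2 * dl e S := by
  rcases dl_cases e S with h | h
  · have h1 := havg V e S
    rw [h, mul_zero] at h1
    have h2 := (Finset.sum_eq_zero_iff_of_nonneg (fun T _ => by
      linarith [ch_le_one T S])).1 h1 T hT
    rw [h2, h, mul_zero]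
  · rw [h]
    linarith [neg_one_le_ch T S]

/-- truncated logarithm is Lipschitz -/
theorem log_lip {x m v : ℝ} (hv : 0 < v) (hm : v ≤ m) :
    (-Real.log (max x v) + Real.log m) ^ 2 ≤ (1 / v) ^ 2 * (x - m) ^ 2 := by
  have key : ∀ a b : ℝ, v ≤ a → a ≤ b → Real.log b - Real.log a ≤ (b - a) / v := by
    intro a b ha hab
    have ha0 : 0 < a := hv.trans_le ha
    have hb0 : 0 < b := ha0.trans_le hab
    rw [← Real.log_div hb0.ne' ha0.ne']
    have h1 : Real.log (b / a) ≤ b / a - 1 := Real.log_le_sub_one_of_pos (by positivity)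
    have h2 : b / a - 1 = (b - a) / a := by field_simp
    rw [h2] at h1
    refine h1.trans ?_
    exact div_le_div_of_nonneg_left (by linarith) hv ha
  have h3 : |(-Real.log (max x v) + Real.log m)| ≤ 1 / v * |x - m| := by
    have hmx : |max x v - m| ≤ |x - m| := by
      have : m = max m v := (max_eq_left hm).symm
      rw [show |max x v - m| = |max x v - max m v| by rw [← this]]
      exact abs_max_sub_max_le_abs x m v
    have hmv : v ≤ max x v := le_max_right _ _
    have h4 : |(-Real.log (max x v) + Real.log m)| ≤ |max x v - m| / v := by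
      rcases le_total (max x v) m with h | h
      · have h5 := key _ _ hmv h
        have h6 : Real.log (max x v) ≤ Real.log m := Real.log_le_log (hv.trans_le hmv) h
        rw [abs_of_nonneg (by linarith), abs_of_nonpos (by linarith), neg_sub]
        linarith
      · have h5 := key _ _ hm h
        have h6 : Real.log m ≤ Real.log (max x v) := Real.log_le_log (hv.trans_le hm) h
        rw [abs_of_nonpos (by linarith), abs_of_nonneg (by linarith)]
        linarith
    refine h4.trans ?_
    rw [div_eq_mul_inv, mul_comm, one_div]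
    exact mul_le_mul_of_nonneg_left hmx (by positivity)
  have h7 : 0 ≤ 1 / v * |x - m| := by positivity
  calc (-Real.log (max x v) + Real.log m) ^ 2 = |(-Real.log (max x v) + Real.log m)| ^ 2 := by
        rw [sq_abs]
    _ ≤ (1 / v * |x - m|) ^ 2 := by
        apply pow_le_pow_left₀ (abs_nonneg _) h3
    _ = (1 / v) ^ 2 * (x - m) ^ 2 := by rw [mul_pow, sq_abs]

theorem sum_geo (n : ℕ) : ∑ a ∈ range (n + 1), ((a : ℝ) + 1) * (1 / 2) ^ a ≤ 4 := by
  have key : ∑ a ∈ range (n + 1), ((a : ℝ) + 1) * (1 / 2) ^ a = 4 - ((n : ℝ) + 3) * (1 / 2) ^ n := by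
    induction n with
    | zero => norm_num
    | succ n ih =>
      rw [Finset.sum_range_succ, ih]
      push_cast
      rw [pow_succ]
      ring
  rw [key]
  have : 0 ≤ ((n : ℝ) + 3) * (1 / 2) ^ n := by positivity
  linarith

theorem sum_lev {N : ℕ} (k : Fin N) :
    ∑ l : Fin N, (if l ≤ k then ((((k : ℕ) - (l : ℕ) : ℕ) : ℝ) + 1) * (1 / 2) ^ ((k : ℕ) - (l : ℕ))
      else 0) ≤ 4 := by
  have h1 : ∑ l : Fin N, (if l ≤ k then ((((k : ℕ) - (l : ℕ) : ℕ) : ℝ) + 1) *
      (1 / 2) ^ ((k : ℕ) - (l : ℕ)) else 0) =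
      ∑ l ∈ range N, (if l ≤ (k : ℕ) then ((((k : ℕ) - l : ℕ) : ℝ) + 1) *
      (1 / 2) ^ ((k : ℕ) - l) else 0) := by
    rw [← Fin.sum_univ_eq_sum_range (fun l => if l ≤ (k : ℕ) then ((((k : ℕ) - l : ℕ) : ℝ) + 1) *
      (1 / 2) ^ ((k : ℕ) - l) else 0)]
    apply Finset.sum_congr rfl
    intro l _
    simp only [Fin.le_def]
  rw [h1, ← Finset.sum_filter]
  have h2 : (range N).filter (fun l => l ≤ (k : ℕ)) = range ((k : ℕ) + 1) := by
    ext l
    simp only [mem_filter, mem_range]
    have := k.2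
    omega
  rw [h2]
  have h3 := Finset.sum_range_reflect (fun a : ℕ => ((a : ℝ) + 1) * (1 / 2) ^ a) ((k : ℕ) + 1)
  simp only [Nat.add_sub_cancel] at h3
  rw [h3]
  exact sum_geo _

/-- expectation -/
def Ex {Ω : Type} [Fintype Ω] (wt : Ω → ℝ) (F : Ω → ℝ) : ℝ := ∑ om, wt om * F om

section ex
variable {Ω : Type} [Fintype Ω] {wt : Ω → ℝ}

theorem Ex_mono (hw : ∀ om, 0 ≤ wt om) {F H : Ω → ℝ} (h : ∀ om, F om ≤ H om) :
    Ex wt F ≤ Ex wt H :=
  Finset.sum_le_sum fun om _ => mul_le_mul_of_nonneg_left (h om) (hw om)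

theorem Ex_add (F H : Ω → ℝ) : Ex wt (fun om => F om + H om) = Ex wt F + Ex wt H := by
  unfold Ex
  rw [← Finset.sum_add_distrib]
  exact Finset.sum_congr rfl fun om _ => by ring

theorem Ex_mul (c : ℝ) (F : Ω → ℝ) : Ex wt (fun om => c * F om) = c * Ex wt F := by
  unfold Ex
  rw [Finset.mul_sum]
  exact Finset.sum_congr rfl fun om _ => by ring

theorem Ex_sum {ι : Type} (s : Finset ι) (F : ι → Ω → ℝ) :
    Ex wt (fun om => ∑ i ∈ s, F i om) = ∑ i ∈ s, Ex wt (F i) := by
  unfold Ex
  rw [Finset.sum_comm]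
  exact Finset.sum_congr rfl fun om _ => by rw [Finset.mul_sum]

theorem Ex_zero : Ex wt (fun _ => 0) = 0 := by
  unfold Ex; simp

end ex

/-- (a) one class: expected squared error of the decoded value -/
theorem partA (havg : T_avg) (hvar : T_var) {V : Type} [Fintype V] [DecidableEq V] {N B : ℕ}
    (hB : 0 < B) (lam : (V → ZMod 2) → ℝ) (hlam : ∀ S, 0 ≤ lam S) (e : Finset V)
    (hle : ∑ S, lam S * dl e S ≤ 1 / 4)
    (mu : Fin N × Bool × Fin B → (V → ZMod 2) → ℝ) (hmu : ∀ i w, 0 ≤ mu i w)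
    (hmu1 : ∀ i, ∑ w, mu i w = 1) (l : Fin N) (s : Bool)
    (hmuT : ∀ b (T : Finset V), ∑ S, mu (l, s, b) S * ch T S =
      Real.exp (-∑ S, lam S * (1 - ch T S))) :
    Ex (fun om : Fin N × Bool × Fin B → V → ZMod 2 => ∏ i, mu i (om i))
      (fun om => (phi (fun l s b => om (l, s, b)) l s e - ∑ S, lam S * dl e S) ^ 2) ≤
      Real.exp 1 * (1 / B) := by
  classical
  set v : ℝ := Real.exp (-1 / 2) with hv
  have hv0 : 0 < v := Real.exp_pos _
  set n : ℝ := ((ev e).card : ℝ) with hn
  have hcard : 0 < (ev e).card := by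
    apply Finset.card_pos.2
    refine ⟨∅, ?_⟩
    unfold ev
    simp
  have hn0 : 0 < n := by rw [hn]; exact_mod_cast hcard
  set m : Finset V → ℝ := fun T => Real.exp (-∑ S, lam S * (1 - ch T S)) with hm
  have hmv : ∀ T ∈ ev e, v ≤ m T := by
    intro T hT
    apply Real.exp_le_exp.2
    have h1 : ∑ S, lam S * (1 - ch T S) ≤ 2 * ∑ S, lam S * dl e S := by
      rw [Finset.mul_sum]
      apply Finset.sum_le_sum
      intro S _
      have := mul_le_mul_of_nonneg_left (one_sub_ch_le havg e S hT) (hlam S)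
      linarith
    linarith
  have hlogm : ∀ T, Real.log (m T) = -∑ S, lam S * (1 - ch T S) := fun T => Real.log_exp _
  -- the centre as an average
  have hcen : ∑ S, lam S * dl e S = (∑ T ∈ ev e, -Real.log (m T)) / n := by
    rw [eq_div_iff hn0.ne']
    have h1 : ∀ T ∈ ev e, -Real.log (m T) = ∑ S, lam S * (1 - ch T S) := by
      intro T _; rw [hlogm, neg_neg]
    rw [Finset.sum_congr rfl h1, Finset.sum_comm, Finset.sum_mul]
    apply Finset.sum_congr rfl
    intro S _
    rw [← Finset.mul_sum, havg V e S]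
    ring
  have hcs : ∀ om : Fin N × Bool × Fin B → V → ZMod 2,
      (phi (fun l s b => om (l, s, b)) l s e - ∑ S, lam S * dl e S) ^ 2 ≤
      (1 / n) * ∑ T ∈ ev e, (1 / v) ^ 2 * (emp (fun l s b => om (l, s, b)) l s T - m T) ^ 2 := by
    intro om
    rw [hcen]
    unfold phi
    rw [← sub_div, ← Finset.sum_sub_distrib]
    have h1 : ∀ T, -Real.log (max (emp (fun l s b => om (l, s, b)) l s T) (Real.exp (-1 / 2))) -
        -Real.log (m T) = -Real.log (max (emp (fun l s b => om (l, s, b)) l s T) v) +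
          Real.log (m T) := by
      intro T; rw [← hv]; ring
    simp only [h1]
    rw [← hn, div_pow]
    have h2 := sq_sum_le_card_mul_sum_sq (s := ev e)
      (f := fun T => -Real.log (max (emp (fun l s b => om (l, s, b)) l s T) v) + Real.log (m T))
    rw [← hn] at h2
    have h3 : ∑ T ∈ ev e, (-Real.log (max (emp (fun l s b => om (l, s, b)) l s T) v) +
        Real.log (m T)) ^ 2 ≤
        ∑ T ∈ ev e, (1 / v) ^ 2 * (emp (fun l s b => om (l, s, b)) l s T - m T) ^ 2 :=
      Finset.sum_le_sum fun T hT => log_lip hv0 (hmv T hT)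
    rw [div_le_iff₀ (by positivity)]
    calc _ ≤ n * ∑ T ∈ ev e, (-Real.log (max (emp (fun l s b => om (l, s, b)) l s T) v) +
        Real.log (m T)) ^ 2 := h2
      _ ≤ n * ∑ T ∈ ev e, (1 / v) ^ 2 * (emp (fun l s b => om (l, s, b)) l s T - m T) ^ 2 :=
        mul_le_mul_of_nonneg_left h3 hn0.le
      _ = _ := by field_simp
  have hwt : ∀ om : Fin N × Bool × Fin B → V → ZMod 2, 0 ≤ ∏ i, mu i (om i) :=
    fun om => Finset.prod_nonneg fun i _ => hmu i _
  refine (Ex_mono hwt hcs).trans ?_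
  rw [Ex_mul, Ex_sum]
  have hone : ∀ T ∈ ev e, Ex (fun om : Fin N × Bool × Fin B → V → ZMod 2 => ∏ i, mu i (om i))
      (fun om => (1 / v) ^ 2 * (emp (fun l s b => om (l, s, b)) l s T - m T) ^ 2) ≤
      (1 / v) ^ 2 * (1 / B) := by
    intro T hT
    rw [Ex_mul]
    apply mul_le_mul_of_nonneg_left _ (by positivity)
    set A : Finset (Fin N × Bool × Fin B) :=
      univ.map ⟨fun b : Fin B => (l, s, b), fun b b' h => by simpa using h⟩ with hA
    have hAc : A.card = B := by rw [hA, Finset.card_map, Finset.card_univ, Fintype.card_fin]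
    have hAn : A.Nonempty := by rw [← Finset.card_pos, hAc]; exact hB
    have h1 := hvar (Fin N × Bool × Fin B) (V → ZMod 2) mu hmu hmu1 A (ch T) (m T) hAn
      (fun w => (abs_ch T w).le) (by
        intro i hi
        rw [hA, Finset.mem_map] at hi
        obtain ⟨b, -, rfl⟩ := hi
        exact hmuT b T)
    rw [hAc] at h1
    refine le_trans (le_of_eq ?_) h1
    unfold Ex
    apply Finset.sum_congr rfl
    intro om _
    congr 3
    unfold emp
    rw [hA, Finset.sum_map]
    rfl
  refine (mul_le_mul_of_nonneg_left (Finset.sum_le_sum hone) (by positivity)).trans (le_of_eq ?_)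
  rw [Finset.sum_const, nsmul_eq_mul, ← hn]
  have h1 : (1 / v) ^ 2 = Real.exp 1 := by
    rw [hv, one_div, ← Real.exp_neg, ← Real.exp_nat_mul]
    congr 1
    push_cast
    ring
  rw [h1]
  field_simp

/-- (b) probability that a pair is split -/
theorem partB (havg : T_avg) {V : Type} [Fintype V] [DecidableEq V]
    (lam : (V → ZMod 2) → ℝ) (hlam : ∀ S, 0 ≤ lam S) (e : Finset V)
    (mu : (V → ZMod 2) → ℝ) (hmu1 : ∑ w, mu w = 1)
    (hmuT : ∀ T : Finset V, ∑ S, mu S * ch T S = Real.exp (-∑ S, lam S * (1 - ch T S)))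
    {u v : V} (hu : u ∈ e) (hv : v ∈ e) :
    ∑ w, mu w * (if w u ≠ w v then 1 else 0) ≤ ∑ S, lam S * dl e S := by
  classical
  by_cases huv : u = v
  · subst huv
    simp only [ne_eq, not_true_eq_false, if_false, mul_zero, Finset.sum_const_zero]
    exact Finset.sum_nonneg fun S _ => mul_nonneg (hlam S) (dl_nonneg _ _)
  have hT : ({u, v} : Finset V) ∈ ev e := by
    unfold ev
    rw [Finset.mem_filter, Finset.mem_powerset]
    refine ⟨?_, ?_⟩
    · intro x hx
      rw [Finset.mem_insert, Finset.mem_singleton] at hx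
      rcases hx with rfl | rfl
      · exact hu
      · exact hv
    · rw [Finset.card_pair huv]; exact even_two
  have hz : ∀ a b : ZMod 2, (if a ≠ b then (1 : ℝ) else 0) = (1 - sg a * sg b) / 2 := by
    intro a b
    have h2 : ∀ a : ZMod 2, a = 0 ∨ a = 1 := by decide
    rcases h2 a with rfl | rfl <;> rcases h2 b with rfl | rfl <;> simp [sg]
  have hch : ∀ w : V → ZMod 2, (if w u ≠ w v then (1 : ℝ) else 0) = (1 - ch {u, v} w) / 2 := by
    intro w
    rw [hz]
    unfold ch
    rw [Finset.prod_pair huv]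
  have h1 : ∑ w, mu w * (if w u ≠ w v then 1 else 0) =
      (1 - Real.exp (-∑ S, lam S * (1 - ch {u, v} S))) / 2 := by
    have e0 : (1 - ∑ S, mu S * ch {u, v} S) / 2 = (∑ w, mu w - ∑ S, mu S * ch {u, v} S) / 2 := by
      rw [hmu1]
    rw [← hmuT, e0, ← Finset.sum_sub_distrib, Finset.sum_div]
    apply Finset.sum_congr rfl
    intro w _
    rw [hch w]
    ring
  rw [h1]
  have h2 : 1 - Real.exp (-∑ S, lam S * (1 - ch {u, v} S)) ≤ ∑ S, lam S * (1 - ch {u, v} S) := by
    have := Real.add_one_le_exp (-∑ S, lam S * (1 - ch {u, v} S))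
    linarith
  have h3 : ∑ S, lam S * (1 - ch {u, v} S) ≤ 2 * ∑ S, lam S * dl e S := by
    rw [Finset.mul_sum]
    apply Finset.sum_le_sum
    intro S _
    have := mul_le_mul_of_nonneg_left (one_sub_ch_le havg e S hT) (hlam S)
    linarith
  linarith

/-- the two signs -/
noncomputable def ys (y : ℝ) (s : Bool) : ℝ := if s then max y 0 else max (-y) 0

theorem ys_nonneg (y : ℝ) (s : Bool) : 0 ≤ ys y s := by
  unfold ys; split_ifs <;> exact le_max_right _ _

theorem ys_le (y : ℝ) (s : Bool) : ys y s ≤ |y| := by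
  unfold ys; split_ifs
  · exact max_le (le_abs_self _) (abs_nonneg _)
  · exact max_le (neg_le_abs _) (abs_nonneg _)

theorem ys_sub (y : ℝ) : ys y true - ys y false = y := by
  unfold ys
  simp only [if_true, Bool.false_eq_true, if_false]
  rcases le_total 0 y with h | h
  · rw [max_eq_left h, max_eq_right (by linarith)]; ring
  · rw [max_eq_right h, max_eq_left (by linarith)]; ring

/-- [CODE] -/
theorem code (havg : T_avg) (hdist : T_dist) (hvar : T_var) (hmean : T_mean) : T_code := by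
  classical
  intro V E _ _ _ N B supp lev y t G T hB ht hG hT P R hP hR
  set lam : Fin N → Bool → (V → ZMod 2) → ℝ := fun l s S => t * 2 ^ (l : ℕ) * ys (y S) s with hlam
  have hlam0 : ∀ l s S, 0 ≤ lam l s S := fun l s S =>
    mul_nonneg (by positivity) (ys_nonneg _ _)
  choose mu0 hmu0 hmuT0 using fun (l : Fin N) (s : Bool) => hdist V (lam l s) (hlam0 l s)
  set mu : Fin N × Bool × Fin B → (V → ZMod 2) → ℝ := fun i => mu0 i.1 i.2.1 with hmu
  have hmu1 : ∀ i, ∑ w, mu i w = 1 := by
    intro i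
    have h1 := hmuT0 i.1 i.2.1 ∅
    have h2 : ∀ S : V → ZMod 2, ch ∅ S = 1 := fun S => by unfold ch; simp
    simp only [h2, mul_one, sub_self, mul_zero, Finset.sum_const_zero, neg_zero,
      Real.exp_zero] at h1
    exact h1
  have hmun : ∀ i w, 0 ≤ mu i w := fun i w => hmu0 _ _ w
  obtain ⟨hm1, hm2⟩ := hmean (Fin N × Bool × Fin B) (V → ZMod 2) mu hmun hmu1
  set wt : (Fin N × Bool × Fin B → V → ZMod 2) → ℝ := fun om => ∏ i, mu i (om i) with hwt
  have hwt0 : ∀ om, 0 ≤ wt om := fun om => Finset.prod_nonneg fun i _ => hmun i _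
  have hB' : (0 : ℝ) < B := by exact_mod_cast hB
  -- bound of the parameters
  have hlamle : ∀ e ∈ G, ∀ l ≤ lev e, ∀ s, ∑ S, lam l s S * dl (supp e) S ≤
      1 / 4 * (1 / 2) ^ ((lev e : ℕ) - (l : ℕ)) := by
    intro e he l hl s
    have h1 : ∑ S, lam l s S * dl (supp e) S ≤ t * 2 ^ (l : ℕ) * ∑ S, |y S| * dl (supp e) S := by
      rw [Finset.mul_sum]
      apply Finset.sum_le_sum
      intro S _
      simp only [hlam]
      have h2 := mul_le_mul_of_nonneg_right (ys_le (y S) s) (dl_nonneg (supp e) S)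
      have h3 : 0 ≤ t * 2 ^ (l : ℕ) := by positivity
      calc t * 2 ^ (l : ℕ) * ys (y S) s * dl (supp e) S =
          t * 2 ^ (l : ℕ) * (ys (y S) s * dl (supp e) S) := by ring
        _ ≤ _ := mul_le_mul_of_nonneg_left h2 h3
    have h4 : (2 : ℝ) ^ (l : ℕ) = 2 ^ (lev e : ℕ) * (1 / 2) ^ ((lev e : ℕ) - (l : ℕ)) := by
      have h5 : (lev e : ℕ) = (l : ℕ) + ((lev e : ℕ) - (l : ℕ)) := by
        have : (l : ℕ) ≤ (lev e : ℕ) := hl
        omega
      conv_rhs => rw [h5]
      rw [Nat.add_sub_cancel_left, pow_add, mul_assoc, ← mul_pow]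
      norm_num
    refine h1.trans ?_
    calc t * 2 ^ (l : ℕ) * ∑ S, |y S| * dl (supp e) S =
        (t * 2 ^ (lev e : ℕ) * ∑ S, |y S| * dl (supp e) S) *
          (1 / 2) ^ ((lev e : ℕ) - (l : ℕ)) := by rw [h4]; ring
      _ ≤ _ := mul_le_mul_of_nonneg_right (hG e he) (by positivity)
  -- part (a)
  have hA : ∀ e ∈ G, Ex wt (fun om => (phi (fun l s b => om (l, s, b)) (lev e) true (supp e) -
      phi (fun l s b => om (l, s, b)) (lev e) false (supp e) -
        t * 2 ^ (lev e : ℕ) * ∑ S, y S * dl (supp e) S) ^ 2) ≤ 11 / B := by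
    intro e he
    have hq : ∀ s, ∑ S, lam (lev e) s S * dl (supp e) S ≤ 1 / 4 := by
      intro s
      have := hlamle e he (lev e) le_rfl s
      simpa using this
    have h1 := partA havg hvar hB (lam (lev e) true) (hlam0 _ _) (supp e) (hq true) mu hmun hmu1
      (lev e) true (fun b T => hmuT0 (lev e) true T)
    have h2 := partA havg hvar hB (lam (lev e) false) (hlam0 _ _) (supp e) (hq false) mu hmun hmu1
      (lev e) false (fun b T => hmuT0 (lev e) false T)
    have hdiff : t * 2 ^ (lev e : ℕ) * ∑ S, y S * dl (supp e) S =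
        ∑ S, lam (lev e) true S * dl (supp e) S - ∑ S, lam (lev e) false S * dl (supp e) S := by
      rw [← Finset.sum_sub_distrib, Finset.mul_sum]
      apply Finset.sum_congr rfl
      intro S _
      simp only [hlam]
      have := ys_sub (y S)
      calc t * 2 ^ (lev e : ℕ) * (y S * dl (supp e) S) =
          t * 2 ^ (lev e : ℕ) * ((ys (y S) true - ys (y S) false) * dl (supp e) S) := by rw [this]
        _ = _ := by ring
    rw [hdiff]
    have h3 : Ex wt (fun om => (phi (fun l s b => om (l, s, b)) (lev e) true (supp e) -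
        phi (fun l s b => om (l, s, b)) (lev e) false (supp e) -
        (∑ S, lam (lev e) true S * dl (supp e) S -
          ∑ S, lam (lev e) false S * dl (supp e) S)) ^ 2) ≤
        Ex wt (fun om => 2 * (phi (fun l s b => om (l, s, b)) (lev e) true (supp e) -
          ∑ S, lam (lev e) true S * dl (supp e) S) ^ 2 +
          2 * (phi (fun l s b => om (l, s, b)) (lev e) false (supp e) -
          ∑ S, lam (lev e) false S * dl (supp e) S) ^ 2) := by
      apply Ex_mono hwt0
      intro om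
      set p1 := phi (fun l s b => om (l, s, b)) (lev e) true (supp e)
      set p2 := phi (fun l s b => om (l, s, b)) (lev e) false (supp e)
      set q1 := ∑ S, lam (lev e) true S * dl (supp e) S
      set q2 := ∑ S, lam (lev e) false S * dl (supp e) S
      nlinarith [sq_nonneg ((p1 - q1) + (p2 - q2))]
    refine h3.trans ?_
    rw [Ex_add, Ex_mul, Ex_mul]
    have h4 : 2 * (Real.exp 1 * (1 / B)) + 2 * (Real.exp 1 * (1 / B)) ≤ 11 / (B : ℝ) := by
      have h5 := Real.exp_one_lt_d9
      rw [le_div_iff₀ hB']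
      have h6 : (2 * (Real.exp 1 * (1 / B)) + 2 * (Real.exp 1 * (1 / B))) * (B : ℝ) =
          4 * Real.exp 1 := by field_simp; ring
      rw [h6]
      linarith
    linarith
  -- part (b)
  have hC : Ex wt (fun om => cost lev T (fun l s b => om (l, s, b))) ≤ 2 * B * T.card := by
    unfold cost
    rw [Ex_sum]
    have hg : ∀ g ∈ T, Ex wt (fun om => ∑ l : Fin N, ∑ s : Bool, ∑ b : Fin B,
        if (l ≤ lev g.1 ∧ om (l, s, b) g.2.1 ≠ om (l, s, b) g.2.2) then
          (((lev g.1 : ℕ) - (l : ℕ) : ℕ) : ℝ) + 1 else 0) ≤ 2 * B := by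
      intro g hg
      obtain ⟨hg1, hg2, hg3⟩ := hT g hg
      rw [Ex_sum]
      have h1 : ∀ l : Fin N, Ex wt (fun om => ∑ s : Bool, ∑ b : Fin B,
          if (l ≤ lev g.1 ∧ om (l, s, b) g.2.1 ≠ om (l, s, b) g.2.2) then
            (((lev g.1 : ℕ) - (l : ℕ) : ℕ) : ℝ) + 1 else 0) ≤
          (B / 2) * (if l ≤ lev g.1 then ((((lev g.1 : ℕ) - (l : ℕ) : ℕ) : ℝ) + 1) *
            (1 / 2) ^ ((lev g.1 : ℕ) - (l : ℕ)) else 0) := by
        intro l
        by_cases hl : l ≤ lev g.1
        · rw [if_pos hl, Ex_sum]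
          have h2 : ∀ s : Bool, Ex wt (fun om => ∑ b : Fin B,
              if (l ≤ lev g.1 ∧ om (l, s, b) g.2.1 ≠ om (l, s, b) g.2.2) then
                (((lev g.1 : ℕ) - (l : ℕ) : ℕ) : ℝ) + 1 else 0) ≤
              B * (((((lev g.1 : ℕ) - (l : ℕ) : ℕ) : ℝ) + 1) *
                (1 / 4 * (1 / 2) ^ ((lev g.1 : ℕ) - (l : ℕ)))) := by
            intro s
            rw [Ex_sum]
            have h3 : ∀ b : Fin B, Ex wt (fun om =>
                if (l ≤ lev g.1 ∧ om (l, s, b) g.2.1 ≠ om (l, s, b) g.2.2) then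
                  (((lev g.1 : ℕ) - (l : ℕ) : ℕ) : ℝ) + 1 else 0) ≤
                ((((lev g.1 : ℕ) - (l : ℕ) : ℕ) : ℝ) + 1) *
                  (1 / 4 * (1 / 2) ^ ((lev g.1 : ℕ) - (l : ℕ))) := by
              intro b
              have h4 : (fun om : Fin N × Bool × Fin B → V → ZMod 2 =>
                  if (l ≤ lev g.1 ∧ om (l, s, b) g.2.1 ≠ om (l, s, b) g.2.2) then
                  (((lev g.1 : ℕ) - (l : ℕ) : ℕ) : ℝ) + 1 else 0) = fun om =>
                  ((((lev g.1 : ℕ) - (l : ℕ) : ℕ) : ℝ) + 1) *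
                    (fun w : V → ZMod 2 => if w g.2.1 ≠ w g.2.2 then (1 : ℝ) else 0)
                      (om (l, s, b)) := by
                ext om
                simp only [hl, true_and]
                split_ifs <;> simp
              rw [h4, Ex_mul]
              apply mul_le_mul_of_nonneg_left _ (by positivity)
              have h5 := hm1 (l, s, b) (fun w : V → ZMod 2 =>
                if w g.2.1 ≠ w g.2.2 then (1 : ℝ) else 0)
              have h6 := partB havg (lam l s) (hlam0 l s) (supp g.1) (mu (l, s, b))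
                (hmu1 (l, s, b)) (fun T => hmuT0 l s T) hg2 hg3
              unfold Ex
              rw [h5]
              exact h6.trans (hlamle g.1 hg1 l hl s)
            calc _ ≤ ∑ b : Fin B, ((((lev g.1 : ℕ) - (l : ℕ) : ℕ) : ℝ) + 1) *
                  (1 / 4 * (1 / 2) ^ ((lev g.1 : ℕ) - (l : ℕ))) :=
                  Finset.sum_le_sum fun b _ => h3 b
              _ = _ := by
                  rw [Finset.sum_const, Finset.card_univ, Fintype.card_fin, nsmul_eq_mul]
          calc _ ≤ ∑ s : Bool, B * (((((lev g.1 : ℕ) - (l : ℕ) : ℕ) : ℝ) + 1) *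
                (1 / 4 * (1 / 2) ^ ((lev g.1 : ℕ) - (l : ℕ)))) :=
                Finset.sum_le_sum fun s _ => h2 s
            _ = _ := by
                rw [Finset.sum_const, Finset.card_univ, Fintype.card_bool, nsmul_eq_mul]
                push_cast
                ring
        · rw [if_neg hl, mul_zero]
          have : (fun om : Fin N × Bool × Fin B → V → ZMod 2 => ∑ s : Bool, ∑ b : Fin B,
              if (l ≤ lev g.1 ∧ om (l, s, b) g.2.1 ≠ om (l, s, b) g.2.2) then
              (((lev g.1 : ℕ) - (l : ℕ) : ℕ) : ℝ) + 1 else 0) = fun _ => 0 := by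
            ext om
            simp only [hl, false_and, if_false, Finset.sum_const_zero]
          rw [this, Ex_zero]
      calc _ ≤ ∑ l : Fin N, (B / 2) * (if l ≤ lev g.1 then
            ((((lev g.1 : ℕ) - (l : ℕ) : ℕ) : ℝ) + 1) *
            (1 / 2) ^ ((lev g.1 : ℕ) - (l : ℕ)) else 0) := Finset.sum_le_sum fun l _ => h1 l
        _ = (B / 2) * ∑ l : Fin N, (if l ≤ lev g.1 then
            ((((lev g.1 : ℕ) - (l : ℕ) : ℕ) : ℝ) + 1) *
            (1 / 2) ^ ((lev g.1 : ℕ) - (l : ℕ)) else 0) := by rw [Finset.mul_sum]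
        _ ≤ (B / 2) * 4 := mul_le_mul_of_nonneg_left (sum_lev _) (by positivity)
        _ = 2 * B := by ring
    calc _ ≤ ∑ g ∈ T, (2 : ℝ) * B := Finset.sum_le_sum hg
      _ = 2 * B * T.card := by rw [Finset.sum_const, nsmul_eq_mul]; ring
  -- conclusion
  obtain ⟨om, hom⟩ := hm2 (fun om => P * ∑ e ∈ G,
      (phi (fun l s b => om (l, s, b)) (lev e) true (supp e) -
        phi (fun l s b => om (l, s, b)) (lev e) false (supp e) -
        t * 2 ^ (lev e : ℕ) * ∑ S, y S * dl (supp e) S) ^ 2 +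
      R * cost lev T (fun l s b => om (l, s, b)))
  refine ⟨fun l s b => om (l, s, b), hom.trans ?_⟩
  have hfin : Ex wt (fun om => P * ∑ e ∈ G,
      (phi (fun l s b => om (l, s, b)) (lev e) true (supp e) -
        phi (fun l s b => om (l, s, b)) (lev e) false (supp e) -
        t * 2 ^ (lev e : ℕ) * ∑ S, y S * dl (supp e) S) ^ 2 +
      R * cost lev T (fun l s b => om (l, s, b))) ≤
      P * ((G.card : ℝ) * (11 / B)) + R * (2 * B * T.card) := by
    rw [Ex_add, Ex_mul, Ex_mul, Ex_sum]
    apply add_le_add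
    · apply mul_le_mul_of_nonneg_left _ hP
      calc _ ≤ ∑ e ∈ G, (11 : ℝ) / B := Finset.sum_le_sum hA
        _ = _ := by rw [Finset.sum_const, nsmul_eq_mul]
    · exact mul_le_mul_of_nonneg_left hC hR
  exact hfin

end Pool.Agent.H70.HS.CODE
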