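import Pool.Agent.H21.HS.Targets

/-!
# MP_7023e6_lc, module DUAL: linear programming duality by Hahn-Banach
-/

set_option autoImplicit false

namespace Pool.Agent.H70.HS.DUAL

open Finset
open Pool.Agent.H21.HS

/-- duality when all bounds are positive -/
theorem dual_pos (E C : Type) [Fintype E] [Fintype C] (v : C → E → ℝ) (r : C → ℝ)
    (hr : ∀ S, 0 < r S) (s : E → ℝ) :
    ∃ x : E → ℝ, (∀ e, |x e| ≤ 1) ∧ (∀ S, |∑ e, x e * v S e| ≤ r S) ∧
      ∃ y : C → ℝ, (∀ e, |x e| < 1 → ∑ S, y S * v S e = s e) ∧
        ∑ S, |y S| * r S ≤ ∑ e, |s e| := by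
  classical
  by_cases hs0 : s = 0
  · refine ⟨0, by simp, fun S => by simp [(hr S).le], 0, ?_, ?_⟩
    · intro e _
      simp [hs0]
    · simp [hs0]
  -- the feasible set
  set Q : Set (E → ℝ) := {x | (∀ e, |x e| ≤ 1) ∧ ∀ S, |∑ e, x e * v S e| ≤ r S} with hQ
  have hQc : IsCompact Q := by
    have hbox : IsCompact (Set.pi Set.univ (fun _ : E => Set.Icc (-1 : ℝ) 1)) :=
      isCompact_univ_pi fun _ => isCompact_Icc
    apply hbox.of_isClosed_subset
    · have h1 : Q = (⋂ e, {x : E → ℝ | |x e| ≤ 1}) ∩ ⋂ S, {x : E → ℝ | |∑ e, x e * v S e| ≤ r S} := by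
        ext x; simp [hQ]
      rw [h1]
      apply IsClosed.inter
      · exact isClosed_iInter fun e => isClosed_le (by fun_prop) (by fun_prop)
      · exact isClosed_iInter fun S => isClosed_le (by fun_prop) (by fun_prop)
    · intro x hx e _
      exact abs_le.1 (hx.1 e)
  have h0Q : (0 : E → ℝ) ∈ Q := by
    refine ⟨by simp, fun S => by simp [(hr S).le]⟩
  obtain ⟨xs, hxs, hmax⟩ := hQc.exists_isMaxOn ⟨0, h0Q⟩
    (f := fun x : E → ℝ => ∑ e, s e * x e) (by fun_prop)
  set h : ℝ := ∑ e, s e * xs e with hh
  have hle : ∀ x ∈ Q, ∑ e, s e * x e ≤ h := fun x hx => hmax hx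
  -- positivity of the value
  have hpos : 0 < h := by
    have hopen : IsOpen ((⋂ e, {x : E → ℝ | |x e| < 1}) ∩
        ⋂ S, {x : E → ℝ | |∑ e, x e * v S e| < r S}) := by
      apply IsOpen.inter
      · exact isOpen_iInter_of_finite fun e => isOpen_lt (by fun_prop) (by fun_prop)
      · exact isOpen_iInter_of_finite fun S => isOpen_lt (by fun_prop) (by fun_prop)
    have hmem : (0 : E → ℝ) ∈ ((⋂ e, {x : E → ℝ | |x e| < 1}) ∩
        ⋂ S, {x : E → ℝ | |∑ e, x e * v S e| < r S}) := by
      constructor
      · simp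
      · simp only [Set.mem_iInter, Set.mem_setOf_eq]
        intro S
        simp [hr S]
    have hcont : Continuous (fun a : ℝ => a • s) := by fun_prop
    have hev : ∀ᶠ a : ℝ in nhds 0, a • s ∈ ((⋂ e, {x : E → ℝ | |x e| < 1}) ∩
        ⋂ S, {x : E → ℝ | |∑ e, x e * v S e| < r S}) := by
      apply hcont.continuousAt.eventually_mem
      apply hopen.mem_nhds
      rw [zero_smul]
      exact hmem
    obtain ⟨δ, hδ, hδ2⟩ := Metric.eventually_nhds_iff.1 hev
    have h1 := hδ2 (y := δ / 2) (by rw [Real.dist_eq, sub_zero, abs_of_pos (by linarith)]; linarith)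
    have h2 : (δ / 2) • s ∈ Q := by
      obtain ⟨h3, h4⟩ := h1
      simp only [Set.mem_iInter, Set.mem_setOf_eq] at h3 h4
      exact ⟨fun e => (h3 e).le, fun S => (h4 S).le⟩
    have h3 := hle _ h2
    have h4 : 0 < ∑ e, s e * ((δ / 2) • s) e := by
      obtain ⟨e0, he0⟩ := Function.ne_iff.1 hs0
      apply Finset.sum_pos'
      · intro e _
        simp only [Pi.smul_apply, smul_eq_mul]
        nlinarith [mul_self_nonneg (s e)]
      · refine ⟨e0, mem_univ _, ?_⟩
        simp only [Pi.smul_apply, smul_eq_mul]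
        have h5 : 0 < s e0 * s e0 := mul_self_pos.2 he0
        nlinarith
    linarith
  -- the dual set
  set K : Set ((C → ℝ) × (E → ℝ)) := {p | ∑ S, |p.1 S| * r S + ∑ e, |p.2 e| ≤ h} with hK
  have hKc : IsCompact K := by
    have hbox : IsCompact ((Set.pi Set.univ (fun S : C => Set.Icc (-(h / r S)) (h / r S))) ×ˢ
        (Set.pi Set.univ (fun _ : E => Set.Icc (-h) h))) :=
      (isCompact_univ_pi fun _ => isCompact_Icc).prod (isCompact_univ_pi fun _ => isCompact_Icc)
    apply hbox.of_isClosed_subset
    · exact isClosed_le (by fun_prop) (by fun_prop)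
    · intro p hp
      have hp' : ∑ S, |p.1 S| * r S + ∑ e, |p.2 e| ≤ h := hp
      have h1 : 0 ≤ ∑ S, |p.1 S| * r S :=
        Finset.sum_nonneg fun S _ => mul_nonneg (abs_nonneg _) (hr S).le
      have h2 : 0 ≤ ∑ e, |p.2 e| := Finset.sum_nonneg fun e _ => abs_nonneg _
      constructor
      · intro S _
        rw [Set.mem_Icc, ← abs_le, le_div_iff₀ (hr S)]
        have := Finset.single_le_sum (f := fun S => |p.1 S| * r S)
          (fun S _ => mul_nonneg (abs_nonneg _) (hr S).le) (mem_univ S)
        linarith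
      · intro e _
        rw [Set.mem_Icc, ← abs_le]
        have := Finset.single_le_sum (f := fun e => |p.2 e|)
          (fun e _ => abs_nonneg _) (mem_univ e)
        linarith
  set φ : (C → ℝ) × (E → ℝ) → (E → ℝ) := fun p e => ∑ S, p.1 S * v S e + p.2 e with hφ
  have hφc : Continuous φ := by
    rw [continuous_pi_iff]
    intro e
    simp only [hφ]
    fun_prop
  have hD : IsClosed (φ '' K) := (hKc.image hφc).isClosed
  have hDconv : Convex ℝ (φ '' K) := by
    rintro _ ⟨p, hp, rfl⟩ _ ⟨q, hq, rfl⟩ α β hα hβ hαβ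
    refine ⟨α • p + β • q, ?_, ?_⟩
    · show ∑ S, |(α • p + β • q).1 S| * r S + ∑ e, |(α • p + β • q).2 e| ≤ h
      have hp' : ∑ S, |p.1 S| * r S + ∑ e, |p.2 e| ≤ h := hp
      have hq' : ∑ S, |q.1 S| * r S + ∑ e, |q.2 e| ≤ h := hq
      have h1 : ∑ S, |(α • p + β • q).1 S| * r S ≤
          α * ∑ S, |p.1 S| * r S + β * ∑ S, |q.1 S| * r S := by
        rw [Finset.mul_sum, Finset.mul_sum, ← Finset.sum_add_distrib]
        apply Finset.sum_le_sum
        intro S _
        simp only [Prod.fst_add, Prod.smul_fst, Pi.add_apply, Pi.smul_apply, smul_eq_mul]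
        have h2 : |α * p.1 S + β * q.1 S| ≤ α * |p.1 S| + β * |q.1 S| := by
          refine (abs_add_le _ _).trans (le_of_eq ?_)
          rw [abs_mul, abs_mul, abs_of_nonneg hα, abs_of_nonneg hβ]
        calc _ ≤ (α * |p.1 S| + β * |q.1 S|) * r S := mul_le_mul_of_nonneg_right h2 (hr S).le
          _ = _ := by ring
      have h2 : ∑ e, |(α • p + β • q).2 e| ≤ α * ∑ e, |p.2 e| + β * ∑ e, |q.2 e| := by
        rw [Finset.mul_sum, Finset.mul_sum, ← Finset.sum_add_distrib]
        apply Finset.sum_le_sum
        intro e _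
        simp only [Prod.snd_add, Prod.smul_snd, Pi.add_apply, Pi.smul_apply, smul_eq_mul]
        refine (abs_add_le _ _).trans (le_of_eq ?_)
        rw [abs_mul, abs_mul, abs_of_nonneg hα, abs_of_nonneg hβ]
      calc _ ≤ α * (∑ S, |p.1 S| * r S + ∑ e, |p.2 e|) + β * (∑ S, |q.1 S| * r S + ∑ e, |q.2 e|) := by
            linarith
        _ ≤ α * h + β * h := add_le_add (mul_le_mul_of_nonneg_left hp' hα)
            (mul_le_mul_of_nonneg_left hq' hβ)
        _ = h := by rw [← add_mul, hαβ, one_mul]
    · ext e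
      simp only [hφ, Prod.fst_add, Prod.smul_fst, Prod.snd_add, Prod.smul_snd, Pi.add_apply,
        Pi.smul_apply, smul_eq_mul]
      have : ∑ S, (α * p.1 S + β * q.1 S) * v S e =
          α * ∑ S, p.1 S * v S e + β * ∑ S, q.1 S * v S e := by
        rw [Finset.mul_sum, Finset.mul_sum, ← Finset.sum_add_distrib]
        apply Finset.sum_congr rfl
        intro S _
        ring
      rw [this]
      ring
  -- membership
  have hsD : s ∈ φ '' K := by
    by_contra hns
    obtain ⟨f, u, hfu, hus⟩ := geometric_hahn_banach_closed_point hDconv hD hns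
    set x0 : E → ℝ := fun e => f (Pi.single e 1) with hx0
    have hfz : ∀ z : E → ℝ, f z = ∑ e, z e * x0 e := by
      intro z
      have h1 : z = ∑ e, z e • (Pi.single e (1 : ℝ) : E → ℝ) := by
        ext e
        simp only [Finset.sum_apply, Pi.smul_apply, smul_eq_mul, Pi.single_apply, mul_ite, mul_one,
          mul_zero]
        rw [Finset.sum_ite_eq]
        simp
      conv_lhs => rw [h1]
      rw [map_sum]
      apply Finset.sum_congr rfl
      intro e _
      rw [map_smul, smul_eq_mul]
    have hu0 : 0 < u := by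
      have : (0 : E → ℝ) ∈ φ '' K := by
        refine ⟨0, ?_, ?_⟩
        · show ∑ S, |(0 : (C → ℝ) × (E → ℝ)).1 S| * r S + ∑ e, |(0 : (C → ℝ) × (E → ℝ)).2 e| ≤ h
          simp [hpos.le]
        · ext e; simp [hφ]
      have := hfu _ this
      rwa [map_zero] at this
    have hA : ∀ S, ∀ c : ℝ, |c| * r S ≤ h → c * ∑ e, x0 e * v S e ≤ u := by
      intro S c hc
      have hm : φ (Pi.single S c, 0) ∈ φ '' K := by
        refine ⟨_, ?_, rfl⟩
        show ∑ S', |(Pi.single S c : C → ℝ) S'| * r S' + ∑ e, |(0 : E → ℝ) e| ≤ h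
        have : ∑ S', |(Pi.single S c : C → ℝ) S'| * r S' = |c| * r S := by
          rw [Finset.sum_eq_single S]
          · simp
          · intro b _ hb
            simp [hb]
          · simp
        rw [this]
        simpa using hc
      have h1 := (hfu _ hm).le
      rw [hfz] at h1
      have h2 : ∀ e, φ (Pi.single S c, 0) e = c * v S e := by
        intro e
        simp only [hφ, Pi.zero_apply, add_zero]
        rw [Finset.sum_eq_single S]
        · simp
        · intro b _ hb
          simp [hb]
        · simp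
      simp only [h2] at h1
      rw [Finset.mul_sum]
      refine le_trans (le_of_eq ?_) h1
      apply Finset.sum_congr rfl
      intro e _
      ring
    have hB : ∀ e, ∀ c : ℝ, |c| ≤ h → c * x0 e ≤ u := by
      intro e c hc
      have hm : φ (0, Pi.single e c) ∈ φ '' K := by
        refine ⟨_, ?_, rfl⟩
        show ∑ S', |(0 : C → ℝ) S'| * r S' + ∑ e', |(Pi.single e c : E → ℝ) e'| ≤ h
        have : ∑ e', |(Pi.single e c : E → ℝ) e'| = |c| := by
          rw [Finset.sum_eq_single e]
          · simp
          · intro b _ hb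
            simp [hb]
          · simp
        rw [this]
        simpa using hc
      have h1 := (hfu _ hm).le
      rw [hfz] at h1
      have h2 : ∀ e', φ (0, Pi.single e c) e' = (Pi.single e c : E → ℝ) e' := by
        intro e'
        simp [hφ]
      simp only [h2] at h1
      rw [Finset.sum_eq_single e] at h1
      · simpa using h1
      · intro b _ hb
        simp [hb]
      · simp
    have hin : (h / u) • x0 ∈ Q := by
      constructor
      · intro e
        simp only [Pi.smul_apply, smul_eq_mul]
        rw [abs_le]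
        have h1 := hB e h (by rw [abs_of_pos hpos])
        have h2 := hB e (-h) (by rw [abs_neg, abs_of_pos hpos])
        constructor
        · rw [neg_le, ← mul_neg, div_mul_eq_mul_div, div_le_iff₀ hu0]
          linarith
        · rw [div_mul_eq_mul_div, div_le_iff₀ hu0]
          linarith
      · intro S
        have h0 : ∑ e, ((h / u) • x0) e * v S e = (h / u) * ∑ e, x0 e * v S e := by
          rw [Finset.mul_sum]
          apply Finset.sum_congr rfl
          intro e _
          simp only [Pi.smul_apply, smul_eq_mul]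
          ring
        rw [h0, abs_le]
        have hrS := hr S
        have h1 := hA S (h / r S) (by
          rw [abs_of_pos (by positivity), div_mul_cancel₀ _ hrS.ne'])
        have h2 := hA S (-(h / r S)) (by
          rw [abs_neg, abs_of_pos (by positivity), div_mul_cancel₀ _ hrS.ne'])
        have h3 : h * (∑ e, x0 e * v S e) ≤ r S * u := by
          rw [div_mul_eq_mul_div, div_le_iff₀ hrS] at h1
          linarith
        have h4 : -(h * (∑ e, x0 e * v S e)) ≤ r S * u := by
          have h5 : -(h / r S) * ∑ e, x0 e * v S e = (-(h * (∑ e, x0 e * v S e))) / r S := by ring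
          rw [h5, div_le_iff₀ hrS] at h2
          linarith
        constructor
        · rw [neg_le, div_mul_eq_mul_div, ← neg_div, div_le_iff₀ hu0]
          linarith
        · rw [div_mul_eq_mul_div, div_le_iff₀ hu0]
          linarith
    have h1 := hle _ hin
    have h2 : ∑ e, s e * ((h / u) • x0) e = (h / u) * f s := by
      rw [hfz s, Finset.mul_sum]
      apply Finset.sum_congr rfl
      intro e _
      simp only [Pi.smul_apply, smul_eq_mul]
      ring
    rw [h2, div_mul_eq_mul_div, div_le_iff₀ hu0] at h1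
    have h3 : f s ≤ u := le_of_mul_le_mul_left h1 hpos
    linarith
  obtain ⟨⟨y, a⟩, hya, hsya⟩ := hsD
  have hya' : ∑ S, |y S| * r S + ∑ e, |a e| ≤ h := hya
  have hse : ∀ e, s e = ∑ S, y S * v S e + a e := by
    intro e
    rw [← hsya]
  have hxs1 := hxs.1
  have hxs2 := hxs.2
  -- complementary slackness
  have hval : h = ∑ S, y S * (∑ e, xs e * v S e) + ∑ e, a e * xs e := by
    rw [hh]
    have h1 : ∀ e, s e * xs e = ∑ S, y S * (xs e * v S e) + a e * xs e := by
      intro e
      rw [hse e, add_mul, Finset.sum_mul]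
      congr 1
      apply Finset.sum_congr rfl
      intro S _
      ring
    rw [Finset.sum_congr rfl fun e _ => h1 e, Finset.sum_add_distrib, Finset.sum_comm]
    congr 1
    apply Finset.sum_congr rfl
    intro S _
    rw [Finset.mul_sum]
  have hb1 : ∑ S, y S * (∑ e, xs e * v S e) ≤ ∑ S, |y S| * r S := by
    apply Finset.sum_le_sum
    intro S _
    calc y S * (∑ e, xs e * v S e) ≤ |y S * (∑ e, xs e * v S e)| := le_abs_self _
      _ = |y S| * |∑ e, xs e * v S e| := abs_mul _ _
      _ ≤ |y S| * r S := mul_le_mul_of_nonneg_left (hxs2 S) (abs_nonneg _)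
  have hb2 : ∑ e, a e * xs e ≤ ∑ e, |a e| * |xs e| := by
    apply Finset.sum_le_sum
    intro e _
    rw [← abs_mul]
    exact le_abs_self _
  have hb3 : ∑ e, |a e| * (1 - |xs e|) ≤ 0 := by
    have : ∑ e, |a e| * (1 - |xs e|) = ∑ e, |a e| - ∑ e, |a e| * |xs e| := by
      rw [← Finset.sum_sub_distrib]
      apply Finset.sum_congr rfl
      intro e _
      ring
    rw [this]
    linarith
  have hb4 : ∀ e ∈ (univ : Finset E), 0 ≤ |a e| * (1 - |xs e|) := by
    intro e _
    apply mul_nonneg (abs_nonneg _)
    linarith [hxs1 e]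
  have hb5 : ∑ e, |a e| * (1 - |xs e|) = 0 := le_antisymm hb3 (Finset.sum_nonneg hb4)
  have hb6 := (Finset.sum_eq_zero_iff_of_nonneg hb4).1 hb5
  refine ⟨xs, hxs1, hxs2, y, ?_, ?_⟩
  · intro e he
    have h1 := hb6 e (mem_univ _)
    have h2 : |a e| = 0 := by
      rcases mul_eq_zero.1 h1 with h3 | h3
      · exact h3
      · exfalso; linarith
    have h3 := abs_eq_zero.1 h2
    rw [hse e, h3, add_zero]
  · have h1 : 0 ≤ ∑ e, |a e| := Finset.sum_nonneg fun e _ => abs_nonneg _
    have h2 : h ≤ ∑ e, |s e| := by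
      rw [hh]
      apply Finset.sum_le_sum
      intro e _
      calc s e * xs e ≤ |s e * xs e| := le_abs_self _
        _ = |s e| * |xs e| := abs_mul _ _
        _ ≤ |s e| * 1 := mul_le_mul_of_nonneg_left (hxs1 e) (abs_nonneg _)
        _ = |s e| := mul_one _
    linarith

/-- [DUAL] -/
theorem dual : T_dual := by
  classical
  intro E C _ _ v r hr hr0 s
  set r' : C → ℝ := fun S => if r S = 0 then 1 else r S with hr'
  have hpos : ∀ S, 0 < r' S := by
    intro S
    simp only [hr']
    split_ifs with h
    · norm_num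
    · exact lt_of_le_of_ne (hr S) (Ne.symm h)
  obtain ⟨x, hx1, hx2, y, hy1, hy2⟩ := dual_pos E C v r' hpos s
  refine ⟨x, hx1, ?_, fun S => if r S = 0 then 0 else y S, ?_, ?_⟩
  · intro S
    by_cases h : r S = 0
    · have : ∑ e, x e * v S e = 0 := by
        apply Finset.sum_eq_zero
        intro e _
        rw [hr0 S h e, mul_zero]
      rw [this, h, abs_zero]
    · have := hx2 S
      simp only [hr', if_neg h] at this
      exact this
  · intro e he
    rw [← hy1 e he]
    apply Finset.sum_congr rfl
    intro S _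
    by_cases h : r S = 0
    · rw [hr0 S h e, mul_zero, mul_zero]
    · simp only [if_neg h]
  · refine le_trans ?_ hy2
    apply Finset.sum_le_sum
    intro S _
    by_cases h : r S = 0
    · simp only [if_pos h, abs_zero, zero_mul]
      exact mul_nonneg (abs_nonneg _) (hpos S).le
    · simp only [if_neg h, hr']
      exact le_rfl

end Pool.Agent.H70.HS.DUAL
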